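import Mathlib
import Pool.Agent.TP975.LR.Ld4

/-!
The normal law for the sums of the Liouville function over the values of a random polynomial of large degree at an
arbitrary finite set of arguments.
-/

set_option autoImplicit false

namespace Pool.Agent.Results.MP_892e4c_nt.NormalLaw

open Finset

/-- the Liouville function on the integers, `lam (-m) = lam m`, `lam 0 = 0` -/
noncomputable def lam (m : ℤ) : ℝ := if m = 0 then 0 else (-1) ^ ArithmeticFunction.cardFactors m.natAbs

/-- the value at `t` of the polynomial with the coefficients `a 0, ..., a d` -/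
def value {d : ℕ} (a : Fin (d + 1) → ℤ) (t : ℤ) : ℤ := ∑ c, a c * t ^ (c : ℕ)

/-- the polynomials of degree at most `d` with coefficients in `[-H, H]` -/
noncomputable def box (d H : ℕ) : Finset (Fin (d + 1) → ℤ) := Fintype.piFinset fun _ => Icc (-(H : ℤ)) H

/-- the sum of `lam (f (t))` over the arguments `t` in `P` -/
noncomputable def S {d : ℕ} (f : Fin (d + 1) → ℤ) (P : Finset ℤ) : ℝ := ∑ t ∈ P, lam (value f t)

/-- the distribution function of the standard normal law -/
noncomputable def Phi (x : ℝ) : ℝ := ∫ t in Set.Iic x, Real.exp (-t ^ 2 / 2) / Real.sqrt (2 * Real.pi)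

open Classical in
/-- For every `δ > 0` there is a `D` such that for all degrees `d ≥ D`, all `A` and all large `H`, for every set `P` of at
least `D` integers of size at most `log ^ A H` and every real `x`, the proportion of the polynomials `f` of degree at most
`d` with coefficients of size at most `H` and with `∑_{t ∈ P} lam (f (t)) ≤ x |P| ^ (1 / 2)` differs from `Phi x` by at
most `δ`. -/
theorem result (δ : ℝ) (hδ : 0 < δ) : ∃ D : ℕ, ∀ d A : ℕ, D ≤ d → ∃ H₀ : ℕ, ∀ H : ℕ, H₀ ≤ H →
    ∀ P : Finset ℤ, D ≤ P.card → (∀ t ∈ P, |(t : ℝ)| ≤ Real.log H ^ A) → ∀ x : ℝ,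
    |(((box d H).filter (fun f => S f P ≤ x * Real.sqrt P.card)).card : ℝ) - Phi x * (box d H).card| ≤
      δ * (box d H).card := by
  obtain ⟨D, hD⟩ := Pool.Agent.TP975.LR.normal_unif Pool.Agent.TP975.LR.lamI Pool.Agent.TP975.LR.winB_lamI
    (by
      intro v hv
      unfold Pool.Agent.TP975.LR.lamI
      rw [if_neg hv]
      exact neg_one_pow_eq_or ℝ _) (by unfold Pool.Agent.TP975.LR.lamI; rw [if_pos rfl]) δ hδ
  refine ⟨D + 1, fun d A hd => ?_⟩
  obtain ⟨H0, h0⟩ := hD d A (by omega)
  refine ⟨H0, fun H hH P hP hPA x => ?_⟩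
  have h1 := h0 H hH P (by omega) hPA x
  have hQ : (0 : ℝ) < (box d H).card := by
    have : (box d H).card = (2 * H + 1) ^ (d + 1) := Pool.Agent.TP975.RP.card_QQ d H
    rw [this]; positivity
  have hPc : (0 : ℝ) < Real.sqrt P.card := Real.sqrt_pos.2 (by exact_mod_cast (by omega : 0 < P.card))
  have e : (box d H).filter (fun f => S f P ≤ x * Real.sqrt P.card) =
      (Pool.Agent.TP975.RP.QQ d H).filter (fun a => Pool.Agent.TP975.LR.Xn Pool.Agent.TP975.LR.lamI P a ≤ x) := by
    ext f
    rw [mem_filter, mem_filter]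
    refine and_congr Iff.rfl ?_
    unfold Pool.Agent.TP975.LR.Xn S
    rw [one_div, inv_mul_le_iff₀ hPc, mul_comm]
    exact Iff.rfl
  rw [e]
  have e2 : ((((Pool.Agent.TP975.RP.QQ d H).filter
      (fun a => Pool.Agent.TP975.LR.Xn Pool.Agent.TP975.LR.lamI P a ≤ x)).card : ℝ) - Phi x * (box d H).card) =
      ((((Pool.Agent.TP975.RP.QQ d H).filter
      (fun a => Pool.Agent.TP975.LR.Xn Pool.Agent.TP975.LR.lamI P a ≤ x)).card : ℝ) / (box d H).card - Phi x) *
        (box d H).card := by
    field_simp
  rw [e2, abs_mul, abs_of_pos hQ]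
  exact mul_le_mul_of_nonneg_right h1 hQ.le

end Pool.Agent.Results.MP_892e4c_nt.NormalLaw
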