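import Pool.Agent.H629Chowla.Exist2

/-!
# Chowla's conjecture at polynomial values after sign changes of the Liouville function

The value of Liouville's function at every prime `p` is changed from `-1` to `1` with some
probability `ε p`, independently for all `p`, where `δ p ≤ ε p ≤ 1 - δ p` for a nonincreasing
function `δ` with `δ N * log log N → ∞` (so `δ` may tend to zero). Then almost surely the resulting
completely multiplicative function satisfies Chowla's conjecture for all the integer polynomials
which are not an integer times a square, of all degrees, and the signs at several polynomials are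
jointly equidistributed. In particular there is a fixed set `Q` of primes with
`∑_{p ∈ Q, p ≤ N} 1 / p = o(log log N)` such that Liouville's function with the signs changed on
`Q` has all these properties.
-/

open Finset Filter Topology MeasureTheory ProbabilityTheory Polynomial

namespace Pool.Agent.Results.MP_892e4c_nt.RandomSignChangesPolynomials

open Classical in
/-- The completely multiplicative function on the integers with the value `1` at the primes of `Q`,
the value `-1` at all the other primes, `lam (-m) = lam m` and `lam 0 = 0` (Liouville's function if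
`Q` is empty). -/
noncomputable def lam (Q : Set ℕ) (m : ℤ) : ℝ :=
  if m = 0 then 0
  else (m.natAbs.primeFactorsList.map (fun p => if p ∈ Q then (1 : ℝ) else -1)).prod

/-- `Q` is a random set of natural numbers (only its primes matter), the events `p ∈ Q` are
independent, and `δ p ≤ P(p ∈ Q) ≤ 1 - δ p` for all primes `p`, where `δ ≥ 0` is nonincreasing with
`δ N * log log N → ∞`. -/
structure Model {Ω : Type*} [MeasurableSpace Ω] (μ : Measure Ω) (Q : Ω → Set ℕ) (δ : ℕ → ℝ) :
    Prop where
  meas : ∀ p, MeasurableSet {ω | p ∈ Q ω}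
  indep : iIndepSet (fun p => {ω | p ∈ Q ω}) μ
  anti : Antitone δ
  nonneg : ∀ n, 0 ≤ δ n
  growth : Tendsto (fun N : ℕ => δ N * Real.log (Real.log N)) atTop atTop
  bounds : ∀ p : ℕ, p.Prime → δ p ≤ μ.real {ω | p ∈ Q ω} ∧ μ.real {ω | p ∈ Q ω} ≤ 1 - δ p

/-- `f` is an integer times the square of an integer polynomial. -/
def IsConstMulSquare (f : ℤ[X]) : Prop := ∃ (c : ℤ) (g : ℤ[X]), f = C c * g ^ 2

/-- Chowla's conjecture with the weight `w` for the function `F`: for all the integer polynomials
`f` which are not an integer times a square, `∑_{n ≤ N} w n * F (f n) = o(N)`. -/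
def Chowla (w : ℕ → ℝ) (F : ℤ → ℝ) : Prop :=
  ∀ f : ℤ[X], ¬ IsConstMulSquare f →
    Tendsto (fun N : ℕ => (∑ n ∈ Icc 1 N, w n * F (f.eval (n : ℤ))) / N) atTop (𝓝 0)

/-- For all families `f 1, ..., f k` of integer polynomials for which no product over a nonempty
set of indices is an integer times a square, all the `2 ^ k` sign patterns of
`F (f 1 n), ..., F (f k n)` have the density `2 ^ (-k)`. -/
def SignPatterns (F : ℤ → ℝ) : Prop :=
  ∀ (k : ℕ) (f : Fin k → ℤ[X]),
    (∀ T : Finset (Fin k), T.Nonempty → ¬ IsConstMulSquare (∏ i ∈ T, f i)) →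
    ∀ s : Fin k → ℝ, (∀ i, s i = 1 ∨ s i = -1) →
      Tendsto (fun N : ℕ => (((Icc 1 N).filter
        (fun n : ℕ => ∀ i, F ((f i).eval (n : ℤ)) = s i)).card : ℝ) / N) atTop (𝓝 ((1 / 2) ^ k))

open Classical in
/-- The sum of `1 / p` over the primes `p ≤ N` of `Q`. -/
noncomputable def recipSum (Q : Set ℕ) (N : ℕ) : ℝ :=
  ∑ p ∈ (Icc 1 N).filter (fun p => p.Prime ∧ p ∈ Q), (1 : ℝ) / p

/-- **Chowla's conjecture at polynomial values for the modified Liouville function.**
1. For arbitrary real weights bounded by `1`, almost surely the weighted form of Chowla's conjecture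
   holds for all integer polynomials; almost surely all the sign patterns have the right density.
2. There is a fixed set of sign changes, of primes with reciprocal sum `o(log log N)`, after which
   Chowla's conjecture holds for all integer polynomials, with the densities of sign patterns. -/
theorem result :
    (∀ (Ω : Type*) (_ : MeasurableSpace Ω) (μ : Measure Ω) (_ : IsProbabilityMeasure μ)
      (Q : Ω → Set ℕ) (δ : ℕ → ℝ), Model μ Q δ →
      (∀ w : ℕ → ℝ, (∀ n, |w n| ≤ 1) → ∀ᵐ ω ∂μ, Chowla w (lam (Q ω))) ∧
      (∀ᵐ ω ∂μ, SignPatterns (lam (Q ω)))) ∧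
    (∃ Q : Set ℕ, Tendsto (fun N : ℕ => recipSum Q N / Real.log (Real.log N)) atTop (𝓝 0) ∧
      Chowla (fun _ => 1) (lam Q) ∧ SignPatterns (lam Q)) := by
  refine ⟨?_, ?_⟩
  · intro Ω _ μ _ Q δ hQ
    exact ⟨fun w hw => Pool.Agent.H629Chowla.poly_all Q hQ.meas hQ.indep δ hQ.anti hQ.nonneg
      hQ.growth hQ.bounds w hw,
      Pool.Agent.H629Chowla.poly_patterns Q hQ.meas hQ.indep δ hQ.anti hQ.nonneg hQ.growth
      hQ.bounds⟩
  · obtain ⟨Q, h1, h2, h3⟩ := Pool.Agent.H629Chowla.exists_set
    refine ⟨Q, h1, fun f hf => ?_, h3⟩
    have h4 := h2 f hf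
    refine h4.congr (fun N => ?_)
    congr 1
    exact sum_congr rfl (fun n _ => (one_mul _).symm)

end Pool.Agent.Results.MP_892e4c_nt.RandomSignChangesPolynomials
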